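import Mathlib
import Pool.Agent.Lib.MP_723ccc_gt.Defs
import Pool.Agent.Lib.MP_723ccc_gt.Sep
import Pool.Agent.Lib.MP_723ccc_gt.NonSep
import Pool.Agent.Lib.MP_723ccc_gt.Exists

set_option autoImplicit false
open Set Topology
open Pool.Agent.Lib.MP_723ccc_gt

universe u v w

namespace Pool.Agent.Results.MP_723ccc_gt.SpTwoToSpFour

/-- Let `X` be a metrizable space and let `i : X → V` be the free topological vector space over `X`.
If `sp_2(X)` has countable tightness then `sp_4(X)` has countable tightness. -/
theorem result {X : Type u} [TopologicalSpace X] [TopologicalSpace.MetrizableSpace X]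
    {V : Type v} [AddCommGroup V] [Module ℝ V] [TopologicalSpace V] [IsTopologicalAddGroup V]
    [ContinuousSMul ℝ V] (i : X → V) (hi : IsFreeTVS.{u, v, w} i)
    (h : CountablyTight (sp i 2)) : CountablyTight (sp i 4) := by
  have hsep : TopologicalSpace.SeparableSpace X := separable_of_countablyTight i hi h
  exact sp_countablyTight_of_separable i hi.continuous 4

end Pool.Agent.Results.MP_723ccc_gt.SpTwoToSpFour
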